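import Pool.Agent.U469.RT.Stm

/-!
Project RT, package DOM: convolutions with symmetric decreasing functions are dominated by averages.
-/

set_option autoImplicit false

namespace Pool.Agent.U103.RT.DOM

open Finset Filter Topology Pool.Agent.U469.RT

theorem sum_Icc_succ' (f : ℤ → ℝ) (N : ℕ) :
    ∑ j ∈ Icc (-((N + 1 : ℕ) : ℤ)) ((N + 1 : ℕ) : ℤ), f j =
      ∑ j ∈ Icc (-(N : ℤ)) (N : ℤ), f j + f ((N : ℤ) + 1) + f (-((N : ℤ) + 1)) := by
  have h : Icc (-((N + 1 : ℕ) : ℤ)) ((N + 1 : ℕ) : ℤ) =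
      insert ((N : ℤ) + 1) (insert (-((N : ℤ) + 1)) (Icc (-(N : ℤ)) (N : ℤ))) := by
    ext x
    simp only [mem_Icc, mem_insert]
    push_cast
    omega
  rw [h, sum_insert, sum_insert]
  · ring
  · simp only [mem_Icc]
    omega
  · simp only [mem_insert, mem_Icc]
    omega

theorem t_DOM : S_DOM := by
  intro Φ F C t k hΦ hΦ0 hΦs hC hF0 hFs ht hr
  have hS : ∀ N : ℕ, ∑ j ∈ Icc (-(N : ℤ)) (N : ℤ), F (k - j) ≤ t * (2 * N + 1) := by
    intro N
    refine le_trans (le_of_eq ?_) (hr N)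
    refine sum_nbij' (fun j => k - j) (fun j => k - j) ?_ ?_ ?_ ?_ ?_
    · intro j hj
      simp only [mem_Icc] at hj ⊢
      omega
    · intro j hj
      simp only [mem_Icc] at hj ⊢
      omega
    · intro j _
      ring
    · intro j _
      ring
    · intro j _
      rfl
  have key : ∀ N : ℕ, ∑ j ∈ Icc (-(N : ℤ)) (N : ℤ), Φ j * F (k - j) -
      Φ N * ∑ j ∈ Icc (-(N : ℤ)) (N : ℤ), F (k - j) ≤
      t * (∑ j ∈ Icc (-(N : ℤ)) (N : ℤ), Φ j - Φ N * (2 * N + 1)) := by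
    intro N
    induction N with
    | zero => simp
    | succ N ih =>
      rw [sum_Icc_succ', sum_Icc_succ', sum_Icc_succ']
      have h1 : Φ (-((N : ℤ) + 1)) = Φ ((N : ℤ) + 1) :=
        le_antisymm (hΦ _ _ (by rw [abs_neg])) (hΦ _ _ (by rw [abs_neg]))
      have h2 : Φ ((N : ℤ) + 1) ≤ Φ N := hΦ _ _ (by
        rw [abs_of_nonneg (by positivity), abs_of_nonneg (by positivity)]
        omega)
      have h3 := mul_le_mul_of_nonneg_left (hS N) (sub_nonneg.2 h2)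
      rw [h1]
      push_cast
      nlinarith
  have hA : ∀ N : ℕ, ∑ j ∈ Icc (-(N : ℤ)) (N : ℤ), Φ j * F (k - j) ≤ C * t := by
    intro N
    have h1 := key N
    have h2 := mul_le_mul_of_nonneg_left (hS N) (hΦ0 N)
    have h3 : ∑ j ∈ Icc (-(N : ℤ)) (N : ℤ), Φ j ≤ C :=
      (hΦs.sum_le_tsum _ (fun j _ => hΦ0 j)).trans hC
    have h4 := mul_le_mul_of_nonneg_left h3 ht
    nlinarith
  refine Real.tsum_le_of_sum_le (fun j => mul_nonneg (hΦ0 j) (hF0 _)) (fun u => ?_)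
  obtain ⟨N, hN⟩ : ∃ N : ℕ, u ⊆ Icc (-(N : ℤ)) (N : ℤ) := by
    refine ⟨u.sup Int.natAbs, fun x hx => ?_⟩
    have : x.natAbs ≤ u.sup Int.natAbs := le_sup (f := Int.natAbs) hx
    rw [mem_Icc]
    omega
  exact (sum_le_sum_of_subset_of_nonneg hN fun j _ _ => mul_nonneg (hΦ0 j) (hF0 _)).trans (hA N)
end Pool.Agent.U103.RT.DOM
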